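import Pool.Agent.K4H49.IR.Spec

set_option autoImplicit false

open Finset

namespace Pool.Agent.K4H28.IR

open Pool.Agent.K4H49.IR

/-- adjacency on numbers -/
def Pq (m i j : ℕ) : Prop :=
  i ≠ j ∧ (2 * m < i + j ∨ (i = 0 ∧ j = m + 1) ∨ (j = 0 ∧ i = m + 1))

instance (m i j : ℕ) : Decidable (Pq m i j) := by unfold Pq; infer_instance

theorem adj_iff {m : ℕ} (i j : Fin (2 * m + 1)) : (A m).Adj i j ↔ Pq m i.1 j.1 := by
  change (i ≠ j ∧ _) ↔ _
  unfold Pq
  rw [Ne, Fin.ext_iff]

theorem sum_nb {m : ℕ} (f : ℕ → ℕ) (x : Fin (2 * m + 1)) :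
    ∑ y ∈ (A m).neighborFinset x, f y.1 = ∑ j ∈ (range (2 * m + 1)).filter (Pq m x.1), f j := by
  rw [sum_filter, ← Fin.sum_univ_eq_sum_range (fun j => if Pq m x.1 j then f j else 0),
    ← sum_filter]
  refine sum_congr ?_ fun _ _ => rfl
  ext y
  rw [SimpleGraph.mem_neighborFinset, adj_iff, mem_filter]
  exact ⟨fun h => ⟨mem_univ _, h⟩, fun h => h.2⟩

theorem sum0 {m : ℕ} (hm : 1 ≤ m) (f : ℕ → ℕ) :
    ∑ j ∈ (range (2 * m + 1)).filter (Pq m 0), f j = f (m + 1) := by
  have : (range (2 * m + 1)).filter (Pq m 0) = {m + 1} := by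
    ext j
    rw [mem_filter, mem_range, mem_singleton]
    unfold Pq
    omega
  rw [this, sum_singleton]

theorem sumx {m x : ℕ} (hx : 1 ≤ x) (hx2 : x ≤ 2 * m) (f : ℕ → ℕ) :
    ∑ j ∈ (range (2 * m + 1)).filter (Pq m x), f j + (if m < x then f x else 0) =
      ∑ j ∈ Ioc (2 * m - x) (2 * m), f j + (if x = m + 1 then f 0 else 0) := by
  rcases Nat.lt_or_ge m x with h | h
  · have hmem : x ∈ Ioc (2 * m - x) (2 * m) := mem_Ioc.2 ⟨by omega, by omega⟩
    rw [if_pos h, ← add_sum_erase _ f hmem]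
    by_cases hxm : x = m + 1
    · have : (range (2 * m + 1)).filter (Pq m x) = insert 0 ((Ioc (2 * m - x) (2 * m)).erase x) := by
        ext j
        rw [mem_filter, mem_range, mem_insert, mem_erase, mem_Ioc]
        unfold Pq
        omega
      rw [if_pos hxm, this, sum_insert (by rw [mem_erase, mem_Ioc]; omega)]
      ring
    · have : (range (2 * m + 1)).filter (Pq m x) = (Ioc (2 * m - x) (2 * m)).erase x := by
        ext j
        rw [mem_filter, mem_range, mem_erase, mem_Ioc]
        unfold Pq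
        omega
      rw [if_neg hxm, this]
      ring
  · rw [if_neg (by omega), if_neg (by omega)]
    have : (range (2 * m + 1)).filter (Pq m x) = Ioc (2 * m - x) (2 * m) := by
      ext j
      rw [mem_filter, mem_range, mem_Ioc]
      unfold Pq
      omega
    rw [this]

/-- the degrees -/
def Dg (m j : ℕ) : ℕ := if j = 0 then 1 else if j ≤ m + 1 then j else j - 1

theorem deg_eq {m : ℕ} (hm : 1 ≤ m) (x : Fin (2 * m + 1)) : (A m).degree x = Dg m x.1 := by
  have h1 : (A m).degree x = ∑ y ∈ (A m).neighborFinset x, (fun _ : ℕ => 1) y.1 := by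
    rw [sum_const, smul_eq_mul, mul_one]
    rfl
  rw [h1, sum_nb (fun _ => 1) x]
  unfold Dg
  rcases Nat.eq_zero_or_pos x.1 with h | h
  · rw [if_pos h, h, sum0 hm]
  · have h2 := sumx h (by omega) (fun _ => 1) (m := m)
    rw [sum_const (s := Ioc _ _), Nat.card_Ioc, smul_eq_mul, mul_one] at h2
    rw [if_neg (by omega)]
    have h3 : 2 * m - (2 * m - x.1) = x.1 := by omega
    rw [h3] at h2
    by_cases hA : m < x.1
    · by_cases hB : x.1 = m + 1
      · rw [if_pos hA, if_pos hB] at h2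
        rw [if_pos (by omega)]
        omega
      · rw [if_pos hA, if_neg hB] at h2
        rw [if_neg (by omega)]
        omega
    · rw [if_neg hA, if_neg (by omega)] at h2
      rw [if_pos (by omega)]
      omega

/-- the weights -/
def Wt (n m j : ℕ) : ℕ := (Dg m j - 1).choose (n - 1)

/-- the value on numbers -/
def sv (n m x : ℕ) : ℕ := (Dg m x).choose n + ∑ j ∈ (range (2 * m + 1)).filter (Pq m x), Wt n m j

theorem sn_eq {n m : ℕ} (hm : 1 ≤ m) (x : Fin (2 * m + 1)) : sn (A m) n x = sv n m x.1 := by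
  unfold sn sv
  rw [deg_eq hm, ← sum_nb (Wt n m) x]
  congr 1
  refine sum_congr rfl fun y _ => ?_
  rw [deg_eq hm]
  rfl

theorem T_succ {m x : ℕ} (hx : x < 2 * m) (f : ℕ → ℕ) :
    ∑ j ∈ Ioc (2 * m - (x + 1)) (2 * m), f j = f (2 * m - x) + ∑ j ∈ Ioc (2 * m - x) (2 * m), f j := by
  have : Ioc (2 * m - (x + 1)) (2 * m) = insert (2 * m - x) (Ioc (2 * m - x) (2 * m)) := by
    ext j
    rw [mem_insert, mem_Ioc, mem_Ioc]
    omega
  rw [this, sum_insert (by rw [mem_Ioc]; omega)]

theorem step {n m x : ℕ} (hn : 2 ≤ n) (hm : n + 1 ≤ m) (hx : x < 2 * m) :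
    sv n m x < sv n m (x + 1) := by
  obtain ⟨k, rfl⟩ : ∃ k, n = k + 1 := ⟨n - 1, by omega⟩
  have hW0 : Wt (k + 1) m 0 = 0 := by
    unfold Wt Dg
    rw [if_pos rfl]
    exact Nat.choose_eq_zero_of_lt (by omega)
  have hW : ∀ j, 1 ≤ j → j ≤ m + 1 → Wt (k + 1) m j = (j - 1).choose k := by
    intro j h1 h2
    unfold Wt Dg
    rw [if_neg (by omega), if_pos h2]
    rfl
  have hW' : ∀ j, m + 2 ≤ j → Wt (k + 1) m j = (j - 2).choose k := by
    intro j h1
    unfold Wt Dg
    rw [if_neg (by omega), if_neg (by omega)]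
    rfl
  have hD : ∀ j, 1 ≤ j → j ≤ m + 1 → Dg m j = j := by
    intro j h1 h2
    unfold Dg
    rw [if_neg (by omega), if_pos h2]
  have hD' : ∀ j, m + 2 ≤ j → Dg m j = j - 1 := by
    intro j h1
    unfold Dg
    rw [if_neg (by omega), if_neg (by omega)]
  have s2 := sumx (m := m) (x := x + 1) (by omega) (by omega) (Wt (k + 1) m)
  rw [T_succ hx] at s2
  unfold sv
  rcases Nat.eq_zero_or_pos x with h0 | h0
  · subst h0
    rw [sum0 (by omega)]
    rw [if_neg (by omega), if_neg (by omega)] at s2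
    have e1 : Dg m 0 = 1 := rfl
    rw [e1, hD (0 + 1) (by omega) (by omega), hW (m + 1) (by omega) le_rfl]
    rw [hW' (2 * m - 0) (by omega)] at s2
    have h3 : (m + 1).choose k ≤ (2 * m - 0 - 2).choose k := Nat.choose_le_choose _ (by omega)
    have h4 : (m + 1).choose k = m.choose (k - 1) + m.choose k := by
      obtain ⟨l, rfl⟩ : ∃ l, k = l + 1 := ⟨k - 1, by omega⟩
      rw [Nat.choose_succ_succ]
      rfl
    have h5 : 0 < m.choose (k - 1) := Nat.choose_pos (by omega)
    have h6 : m + 1 - 1 = m := rfl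
    rw [h6]
    have h7 : (0 + 1).choose (k + 1) = Nat.choose 1 (k + 1) := rfl
    omega
  have s1 := sumx (m := m) (x := x) h0 (by omega) (Wt (k + 1) m)
  have hp : ∀ a, k ≤ a → 0 < a.choose k := fun a h => Nat.choose_pos h
  rcases Nat.lt_trichotomy x m with h | h | h
  · rw [if_neg (by omega), if_neg (by omega)] at s1
    rw [if_neg (by omega), if_neg (by omega)] at s2
    have h1 : 0 < Wt (k + 1) m (2 * m - x) := by
      rcases Nat.lt_or_ge (2 * m - x) (m + 2) with h2 | h2
      · rw [hW _ (by omega) (by omega)]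
        exact hp _ (by omega)
      · rw [hW' _ h2]
        exact hp _ (by omega)
    have h2 : (Dg m x).choose (k + 1) ≤ (Dg m (x + 1)).choose (k + 1) := by
      rw [hD x h0 (by omega), hD (x + 1) (by omega) (by omega)]
      exact Nat.choose_le_choose _ (by omega)
    omega
  · subst h
    rw [if_neg (by omega), if_neg (by omega)] at s1
    rw [if_pos (by omega), if_pos rfl, hW0, hW (x + 1) (by omega) le_rfl] at s2
    have e : 2 * x - x = x := by omega
    rw [e] at s2 s1
    have h1 : 0 < Wt (k + 1) x x := by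
      rw [hW _ h0 (by omega)]
      exact hp _ (by omega)
    rw [hD x h0 (by omega), hD (x + 1) (by omega) le_rfl, Nat.choose_succ_succ x k]
    have h6 : x + 1 - 1 = x := rfl
    rw [h6] at s2
    simp only [Nat.succ_eq_add_one]
    omega
  · rcases Nat.lt_or_ge (m + 1) x with h1 | h1
    · rw [if_pos h, if_neg (by omega), hW' x (by omega)] at s1
      rw [if_pos (by omega), if_neg (by omega), hW' (x + 1) (by omega)] at s2
      rw [hD' x (by omega), hD' (x + 1) (by omega)]
      obtain ⟨y, rfl⟩ : ∃ y, x = y + 2 := ⟨x - 2, by omega⟩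
      have e1 : y + 2 + 1 - 1 = y + 1 + 1 := rfl
      have e2 : y + 2 + 1 - 2 = y + 1 := rfl
      have e3 : y + 2 - 2 = y := rfl
      have e4 : y + 2 - 1 = y + 1 := rfl
      rw [e2] at s2
      rw [e3] at s1
      rw [e1, e4, Nat.choose_succ_succ (y + 1) k]
      have h2 := hp y (by omega)
      simp only [Nat.succ_eq_add_one]
      omega
    · have h2 : x = m + 1 := by omega
      subst h2
      rw [if_pos (by omega), if_pos rfl, hW (m + 1) (by omega) le_rfl, hW0] at s1
      rw [if_pos (by omega), if_neg (by omega), hW' (m + 1 + 1) (by omega)] at s2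
      have e : 2 * m - (m + 1) = m - 1 := by omega
      rw [e] at s2 s1
      rw [hD (m + 1) (by omega) le_rfl, hD' (m + 1 + 1) (by omega)]
      have e1 : m + 1 + 1 - 1 = m + 1 := rfl
      have e2 : m + 1 + 1 - 2 = m := rfl
      have e3 : m + 1 - 1 = m := rfl
      rw [e2] at s2
      rw [e3] at s1
      rw [e1]
      have h3 : 0 < Wt (k + 1) m (m - 1) := by
        rw [hW _ (by omega) (by omega)]
        exact hp _ (by omega)
      omega

theorem mono : StMono := by
  intro n m hn hm
  have h : StrictMono (fun x : Fin (2 * m + 1) => sv n m x.1) := by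
    rw [Fin.strictMono_iff_lt_succ]
    intro i
    exact step hn hm i.2
  intro x y hxy
  rw [sn_eq (by omega), sn_eq (by omega)]
  exact h hxy

end Pool.Agent.K4H28.IR
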